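import Mathlib

set_option autoImplicit false

namespace Pool.Agent.Results.MP_b95813_al.TwoGenerators

/-- The atoms (minimal generators) of a monoid of natural numbers. -/
def atoms (S : AddSubmonoid ℕ) : Set ℕ :=
  {x | x ∈ S ∧ x ≠ 0 ∧ ∀ y ∈ S, ∀ z ∈ S, x = y + z → y = 0 ∨ z = 0}

/-- `x ≼ y`: `y - x` lies in the monoid. -/
def Div (S : AddSubmonoid ℕ) (x y : ℕ) : Prop := ∃ s ∈ S, y = x + s

/-- The `ω`-primality function. -/
noncomputable def primOmega (S : AddSubmonoid ℕ) (n : ℕ) : ℕ :=
  open Classical in
  if n = 0 then 0 else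
    sInf {m | ∀ U : Multiset ℕ, (∀ u ∈ U, u ∈ atoms S) → Div S n U.sum →
      ∃ T ≤ U, Multiset.card T ≤ m ∧ Div S n T.sum}

/-- Quasilinear functions. -/
def QL (f : ℕ → ℕ) : Prop :=
  ∃ a1 a0 : ℕ → ℚ, (∃ p, 0 < p ∧ Function.Periodic a1 p) ∧ (∃ p, 0 < p ∧ Function.Periodic a0 p) ∧
    (∃ n, a1 n ≠ 0) ∧ ∀ n, (f n : ℚ) = a1 n * n + a0 n

/-- `f` is the eventual quasilinear form of `ω`. -/
def IsForm (S : AddSubmonoid ℕ) (f : ℕ → ℕ) : Prop :=
  QL f ∧ ∃ N, ∀ n ∈ S, N ≤ n → primOmega S n = f n

/-- `D` is the dissonance point of `S`. -/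
def IsDis (S : AddSubmonoid ℕ) (D : ℕ) : Prop :=
  ∃ f, IsForm S f ∧ IsGreatest {n | n ∈ S ∧ primOmega S n ≠ f n} D

variable {a b : ℕ}

theorem mem_two {x : ℕ} :
    x ∈ AddSubmonoid.closure ({a, b} : Set ℕ) ↔ ∃ i j : ℕ, i * a + j * b = x := by
  rw [AddSubmonoid.mem_closure_pair]
  simp

theorem atoms_two (ha : 2 ≤ a) (hb : 2 ≤ b) (hab : Nat.Coprime a b) :
    atoms (AddSubmonoid.closure ({a, b} : Set ℕ)) = {a, b} := by
  have hma : a ∈ AddSubmonoid.closure ({a, b} : Set ℕ) := mem_two.2 ⟨1, 0, by ring⟩
  have hmb : b ∈ AddSubmonoid.closure ({a, b} : Set ℕ) := mem_two.2 ⟨0, 1, by ring⟩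
  ext x
  constructor
  · rintro ⟨hx, hx0, hx2⟩
    obtain ⟨i, j, rfl⟩ := mem_two.1 hx
    rcases Nat.eq_zero_or_pos i with hi | hi
    · subst hi
      rcases Nat.eq_zero_or_pos j with hj | hj
      · subst hj
        simp at hx0
      · obtain ⟨j', rfl⟩ : ∃ j', j = j' + 1 := ⟨j - 1, by omega⟩
        have := hx2 b hmb (j' * b) (mem_two.2 ⟨0, j', by ring⟩) (by ring)
        right
        rcases this with h | h
        · omega
        · rw [Set.mem_singleton_iff, zero_mul, zero_add, add_mul, h]
          ring
    · obtain ⟨i', rfl⟩ : ∃ i', i = i' + 1 := ⟨i - 1, by omega⟩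
      have := hx2 a hma (i' * a + j * b) (mem_two.2 ⟨i', j, by ring⟩) (by ring)
      left
      rcases this with h | h
      · omega
      · have : (i' + 1) * a + j * b = a + (i' * a + j * b) := by ring
        rw [this, h]
        rfl
  · have aux : ∀ a b : ℕ, 2 ≤ a → 2 ≤ b → Nat.Coprime a b → ∀ i j i' j' : ℕ,
        a = (i * a + j * b) + (i' * a + j' * b) → i * a + j * b = 0 ∨ i' * a + j' * b = 0 := by
      intro a b ha hb hab i j i' j' h
      rcases Nat.eq_zero_or_pos (i + i') with h0 | h0
      · exfalso
        have hi : i = 0 := by omega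
        have hi' : i' = 0 := by omega
        subst hi
        subst hi'
        have hdvd : b ∣ a := ⟨j + j', by rw [h]; ring⟩
        have h1 := Nat.eq_one_of_dvd_coprimes hab hdvd dvd_rfl
        omega
      · have h1 : (j + j') * b = 0 ∧ i + i' = 1 := by
          have h2 : a = (i + i') * a + (j + j') * b := by
            rw [add_mul, add_mul]
            omega
          obtain ⟨s, hs⟩ : ∃ s, i + i' = s + 1 := ⟨i + i' - 1, by omega⟩
          rw [hs, add_mul, one_mul] at h2
          have h3 : s * a = 0 := by omega
          have h4 : s = 0 := by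
            rcases Nat.mul_eq_zero.1 h3 with h | h
            · exact h
            · omega
          constructor
          · omega
          · omega
        have hj : j = 0 ∧ j' = 0 := by
          rcases Nat.mul_eq_zero.1 h1.1 with h | h <;> omega
        obtain ⟨rfl, rfl⟩ := hj
        rcases Nat.eq_zero_or_pos i with hi | hi
        · left
          rw [hi]
          ring
        · right
          have : i' = 0 := by omega
          rw [this]
          ring
    rintro (rfl | rfl)
    · refine ⟨hma, by omega, ?_⟩
      intro y hy z hz hyz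
      obtain ⟨i, j, rfl⟩ := mem_two.1 hy
      obtain ⟨i', j', rfl⟩ := mem_two.1 hz
      exact aux _ _ ha hb hab i j i' j' hyz
    · refine ⟨hmb, by omega, ?_⟩
      intro y hy z hz hyz
      obtain ⟨i, j, rfl⟩ := mem_two.1 hy
      obtain ⟨i', j', rfl⟩ := mem_two.1 hz
      have := aux _ _ hb ha hab.symm j i j' i' (by omega)
      omega

theorem div_iff (hb : 0 < b) (hab : Nat.Coprime a b) (x y i j : ℕ) :
    Div (AddSubmonoid.closure ({a, b} : Set ℕ)) (x * a + y * b) (i * a + j * b) ↔
      ∃ t : ℤ, (x : ℤ) + b * t ≤ i ∧ (y : ℤ) - a * t ≤ j := by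
  constructor
  · rintro ⟨s, hs, h⟩
    obtain ⟨u, v, rfl⟩ := mem_two.1 hs
    have h1 : ((i : ℤ) - x - u) * a = (y + v - j) * b := by
      have : ((i * a + j * b : ℕ) : ℤ) = ((x * a + y * b + (u * a + v * b) : ℕ) : ℤ) := by
        rw [h]
      push_cast at this
      linarith
    have hcop : IsCoprime (b : ℤ) (a : ℤ) := (Nat.isCoprime_iff_coprime.2 hab).symm
    have hdvd : (b : ℤ) ∣ (i : ℤ) - x - u := by
      apply hcop.dvd_of_dvd_mul_right
      exact ⟨y + v - j, by rw [h1]; ring⟩
    obtain ⟨t, ht⟩ := hdvd
    have h2 : (y : ℤ) + v - j = a * t := by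
      have hb' : (b : ℤ) ≠ 0 := by exact_mod_cast hb.ne'
      apply mul_right_cancel₀ hb'
      rw [← h1, ht]
      ring
    refine ⟨t, ?_, ?_⟩
    · have := Int.natCast_nonneg u
      linarith
    · have := Int.natCast_nonneg v
      linarith
  · rintro ⟨t, h1, h2⟩
    refine ⟨((i : ℤ) - x - b * t).toNat * a + ((j : ℤ) - y + a * t).toNat * b,
      mem_two.2 ⟨_, _, rfl⟩, ?_⟩
    have e1 : ((((i : ℤ) - x - b * t).toNat : ℕ) : ℤ) = (i : ℤ) - x - b * t :=
      Int.toNat_of_nonneg (by linarith)
    have e2 : ((((j : ℤ) - y + a * t).toNat : ℕ) : ℤ) = (j : ℤ) - y + a * t :=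
      Int.toNat_of_nonneg (by linarith)
    zify
    rw [e1, e2]
    ring

theorem form_of_atoms {U : Multiset ℕ} (hU : ∀ u ∈ U, u = a ∨ u = b) :
    ∃ i j, U = Multiset.replicate i a + Multiset.replicate j b := by
  induction U using Multiset.induction_on with
  | empty => exact ⟨0, 0, by simp⟩
  | cons u U ih =>
    obtain ⟨i, j, h⟩ := ih (fun v hv => hU v (Multiset.mem_cons_of_mem hv))
    rcases hU u (Multiset.mem_cons_self u U) with rfl | rfl
    · exact ⟨i + 1, j, by rw [h, Multiset.replicate_succ, Multiset.cons_add]⟩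
    · exact ⟨i, j + 1, by rw [h, Multiset.replicate_succ, Multiset.add_cons]⟩

/-- Explicit value of `ω` for two generators. -/
theorem primOmega_two (ha : 2 ≤ a) (hlt : a < b) (hab : Nat.Coprime a b) (x y k : ℕ)
    (hy : y < a) (hk1 : x ≤ k * b) (hk2 : k * b < x + b) (h0 : x * a + y * b ≠ 0) :
    primOmega (AddSubmonoid.closure ({a, b} : Set ℕ)) (x * a + y * b) =
      max (x + if y = 0 then 0 else b) (k * a + y) := by
  have hat := atoms_two ha (by omega) hab (b := b)
  set S := AddSubmonoid.closure ({a, b} : Set ℕ) with hS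
  have hdiv := div_iff (a := a) (b := b) (by omega) hab x y
  rw [← hS] at hdiv
  unfold primOmega
  rw [if_neg h0]
  have hka : ∀ r : ℕ, x ≤ r * b → k ≤ r := by
    intro r hr
    by_contra hc
    have : (r + 1) * b ≤ k * b := Nat.mul_le_mul_right b (by omega)
    have : (r + 1) * b = r * b + b := by ring
    omega
  -- the two extreme multisets
  have hA : Div S (x * a + y * b) ((x + if y = 0 then 0 else b) * a + 0 * b) := by
    rw [hdiv]
    by_cases hy0 : y = 0
    · refine ⟨0, ?_, ?_⟩
      · simp [hy0]
      · simp [hy0]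
    · refine ⟨1, ?_, ?_⟩
      · simp [hy0]
      · push_cast
        have : (y : ℤ) < a := by exact_mod_cast hy
        linarith
  have hC : Div S (x * a + y * b) (0 * a + (k * a + y) * b) := by
    rw [hdiv]
    refine ⟨-k, ?_, ?_⟩
    · have : (x : ℤ) ≤ k * b := by exact_mod_cast hk1
      push_cast
      linarith
    · push_cast
      linarith
  have hmem : max (x + if y = 0 then 0 else b) (k * a + y) ∈
      {m | ∀ U : Multiset ℕ, (∀ u ∈ U, u ∈ atoms S) → Div S (x * a + y * b) U.sum →
        ∃ T ≤ U, Multiset.card T ≤ m ∧ Div S (x * a + y * b) T.sum} := by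
    intro U hU hdU
    obtain ⟨i, j, rfl⟩ := form_of_atoms (U := U) (a := a) (b := b) (fun u hu => by
      have := hU u hu
      rw [hat] at this
      exact this)
    have hsum : ∀ i j : ℕ, (Multiset.replicate i a + Multiset.replicate j b).sum =
        i * a + j * b := by
      intro i j
      simp [Multiset.sum_replicate]
    have hle : ∀ i' j' : ℕ, i' ≤ i → j' ≤ j →
        Multiset.replicate i' a + Multiset.replicate j' b ≤
          Multiset.replicate i a + Multiset.replicate j b := by
      intro i' j' h1 h2
      exact add_le_add (Multiset.replicate_mono a h1) (Multiset.replicate_mono b h2)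
    have hcard : ∀ i j : ℕ, Multiset.card (Multiset.replicate i a + Multiset.replicate j b) =
        i + j := by
      intro i j
      simp
    rw [hsum, hdiv] at hdU
    obtain ⟨t, ht1, ht2⟩ := hdU
    have hb0 : (0 : ℤ) < b := by exact_mod_cast (show 0 < b by omega)
    have ha0 : (0 : ℤ) < a := by exact_mod_cast (show 0 < a by omega)
    rcases lt_or_ge t 0 with ht | ht
    · obtain ⟨r, rfl⟩ : ∃ r : ℕ, t = -(r : ℤ) := ⟨(-t).toNat, by
        rw [Int.toNat_of_nonneg (by omega)]
        ring⟩
      have hr1 : 1 ≤ r := by omega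
      by_cases hrk : k ≤ r
      · refine ⟨_, hle 0 (k * a + y) (Nat.zero_le _) ?_, ?_, ?_⟩
        · have h3 : (k * a : ℤ) ≤ r * a := by
            apply mul_le_mul_of_nonneg_right _ ha0.le
            exact_mod_cast hrk
          zify
          linarith
        · rw [hcard]
          simp
        · rw [hsum]
          exact hC
      · have hxr : r * b < x := by
          by_contra hc
          exact hrk (hka r (by omega))
        refine ⟨_, hle (x - r * b) (y + r * a) ?_ ?_, ?_, ?_⟩
        · zify [hxr.le]
          linarith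
        · zify
          linarith
        · rw [hcard]
          have h4 : r * a ≤ r * b := Nat.mul_le_mul_left r hlt.le
          have h5 : x - r * b + (y + r * a) ≤ x + y := by omega
          have h6 : y ≤ if y = 0 then 0 else b := by
            split_ifs with h
            · omega
            · omega
          exact le_max_of_le_left (by omega)
        · rw [hsum, hdiv]
          refine ⟨-r, ?_, ?_⟩
          · push_cast [Nat.cast_sub hxr.le]
            linarith
          · push_cast
            linarith
    · by_cases hy0 : y = 0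
      · refine ⟨_, hle x 0 ?_ (Nat.zero_le _), ?_, ?_⟩
        · zify
          have : (0 : ℤ) ≤ b * t := mul_nonneg hb0.le ht
          linarith
        · rw [hcard]
          exact le_max_of_le_left (by omega)
        · rw [hsum, hdiv]
          exact ⟨0, by simp, by simp [hy0]⟩
      · rcases eq_or_lt_of_le ht with ht0 | ht0
        · subst ht0
          refine ⟨_, hle x y ?_ ?_, ?_, ?_⟩
          · zify
            linarith
          · zify
            linarith
          · rw [hcard]
            apply le_max_of_le_left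
            rw [if_neg hy0]
            omega
          · rw [hsum, hdiv]
            exact ⟨0, by simp, by simp⟩
        · refine ⟨_, hle (x + b) 0 ?_ (Nat.zero_le _), ?_, ?_⟩
          · zify
            have : (b : ℤ) * 1 ≤ b * t := mul_le_mul_of_nonneg_left (by omega) hb0.le
            linarith
          · rw [hcard]
            apply le_max_of_le_left
            rw [if_neg hy0]
            omega
          · rw [hsum]
            have := hA
            rw [if_neg hy0] at this
            exact this
  apply le_antisymm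
  · exact Nat.sInf_le hmem
  · apply le_csInf ⟨_, hmem⟩
    intro m hm
    apply max_le
    · obtain ⟨T, hT, hcard, hd⟩ := hm (Multiset.replicate (x + if y = 0 then 0 else b) a)
        (fun u hu => by
          rw [hat, Multiset.eq_of_mem_replicate hu]
          simp)
        (by
          rw [Multiset.sum_replicate]
          simpa using hA)
      obtain ⟨i, -, rfl⟩ := Multiset.le_replicate_iff.1 hT
      rw [Multiset.card_replicate] at hcard
      rw [Multiset.sum_replicate, smul_eq_mul] at hd
      have hd' : Div S (x * a + y * b) (i * a + 0 * b) := by simpa using hd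
      rw [hdiv] at hd'
      obtain ⟨t, h1, h2⟩ := hd'
      have hb0 : (0 : ℤ) < b := by exact_mod_cast (show 0 < b by omega)
      have ha0 : (0 : ℤ) < a := by exact_mod_cast (show 0 < a by omega)
      refine le_trans ?_ hcard
      push_cast at h2
      by_cases hy0 : y = 0
      · rw [if_pos hy0]
        have ht : 0 ≤ t := by
          by_contra hc
          have h3 : (a : ℤ) * t ≤ a * (-1) := mul_le_mul_of_nonneg_left (by omega) ha0.le
          rw [hy0] at h2
          push_cast at h2
          linarith
        have h3 : (0 : ℤ) ≤ b * t := mul_nonneg hb0.le ht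
        zify
        linarith
      · rw [if_neg hy0]
        have ht : 1 ≤ t := by
          by_contra hc
          have h3 : (a : ℤ) * t ≤ a * 0 := mul_le_mul_of_nonneg_left (by omega) ha0.le
          have h4 : (0 : ℤ) < y := by exact_mod_cast Nat.pos_of_ne_zero hy0
          linarith
        have h3 : (b : ℤ) * 1 ≤ b * t := mul_le_mul_of_nonneg_left ht hb0.le
        zify
        linarith
    · obtain ⟨T, hT, hcard, hd⟩ := hm (Multiset.replicate (k * a + y) b)
        (fun u hu => by
          rw [hat, Multiset.eq_of_mem_replicate hu]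
          simp)
        (by
          rw [Multiset.sum_replicate]
          simpa using hC)
      obtain ⟨j, -, rfl⟩ := Multiset.le_replicate_iff.1 hT
      rw [Multiset.card_replicate] at hcard
      rw [Multiset.sum_replicate, smul_eq_mul] at hd
      have hd' : Div S (x * a + y * b) (0 * a + j * b) := by simpa using hd
      rw [hdiv] at hd'
      obtain ⟨t, h1, h2⟩ := hd'
      have hb0 : (0 : ℤ) < b := by exact_mod_cast (show 0 < b by omega)
      have ha0 : (0 : ℤ) < a := by exact_mod_cast (show 0 < a by omega)
      refine le_trans ?_ hcard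
      push_cast at h1
      have ht : t ≤ 0 := by
        by_contra hc
        have h3 : (b : ℤ) * 1 ≤ b * t := mul_le_mul_of_nonneg_left (by omega) hb0.le
        have h4 : (0 : ℤ) ≤ x := Int.natCast_nonneg x
        linarith
      obtain ⟨r, rfl⟩ : ∃ r : ℕ, t = -(r : ℤ) := ⟨(-t).toNat, by
        rw [Int.toNat_of_nonneg (by omega)]
        ring⟩
      have hkr : k ≤ r := by
        apply hka
        zify
        linarith
      have h3 : (k * a : ℤ) ≤ r * a := by
        apply mul_le_mul_of_nonneg_right _ ha0.le
        exact_mod_cast hkr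
      zify
      linarith

section Form

/-- The second coordinate of the normal form. -/
noncomputable def yy (a b n : ℕ) : ℕ := sInf {y | (y * b) % a = n % a}

theorem yy_spec (ha : 2 ≤ a) (hab : Nat.Coprime a b) (n : ℕ) :
    yy a b n < a ∧ (yy a b n * b) % a = n % a := by
  obtain ⟨u, -, hu⟩ := Nat.exists_mul_mod_eq_one_of_coprime hab.symm (show 1 < a by omega)
  have hex : ((n * u) % a) ∈ {y | (y * b) % a = n % a} := by
    change ((n * u) % a * b) % a = n % a
    rw [Nat.mod_mul_mod, mul_assoc, Nat.mul_mod, mul_comm u b, hu, mul_one, Nat.mod_mod]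
  constructor
  · exact (Nat.sInf_le hex).trans_lt (Nat.mod_lt _ (by omega))
  · exact Nat.sInf_mem ⟨_, hex⟩

theorem yy_unique (ha : 2 ≤ a) (hab : Nat.Coprime a b) {n y : ℕ} (hy : y < a)
    (h : (y * b) % a = n % a) : yy a b n = y := by
  obtain ⟨h1, h2⟩ := yy_spec ha hab n
  have h3 : yy a b n * b ≡ y * b [MOD a] := by
    unfold Nat.ModEq
    rw [h, h2]
  have h4 := Nat.ModEq.cancel_right_of_coprime hab h3
  unfold Nat.ModEq at h4
  rwa [Nat.mod_eq_of_lt h1, Nat.mod_eq_of_lt hy] at h4

/-- The periodic part. -/
noncomputable def cc (a b n : ℕ) : ℕ := if yy a b n = 0 then 0 else (a - yy a b n) * b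

/-- The eventual quasilinear form of `ω`. -/
noncomputable def ff (a b n : ℕ) : ℕ := (n + cc a b n) / a

theorem ff_eq (ha : 2 ≤ a) (hab : Nat.Coprime a b) {x y : ℕ} (hy : y < a) :
    ff a b (x * a + y * b) = x + if y = 0 then 0 else b := by
  have h1 : yy a b (x * a + y * b) = y := by
    apply yy_unique ha hab hy
    rw [Nat.add_comm, Nat.add_mul_mod_self_right]
  unfold ff cc
  rw [h1]
  apply Nat.div_eq_of_eq_mul_right (show 0 < a by omega)
  by_cases hy0 : y = 0
  · simp [hy0, mul_comm]
  · rw [if_neg hy0, if_neg hy0]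
    obtain ⟨d, hd⟩ : ∃ d, a = y + d := ⟨a - y, by omega⟩
    rw [show a - y = d by omega]
    subst hd
    ring

theorem dvd_cc (ha : 2 ≤ a) (hab : Nat.Coprime a b) (n : ℕ) : a ∣ n + cc a b n := by
  obtain ⟨h1, h2⟩ := yy_spec ha hab n
  unfold cc
  split_ifs with h
  · rw [h, zero_mul, Nat.zero_mod] at h2
    rw [add_zero]
    exact Nat.dvd_of_mod_eq_zero h2.symm
  · have h3 : (a : ℤ) ∣ (n : ℤ) - (yy a b n * b : ℕ) := by
      have : yy a b n * b ≡ n [MOD a] := h2
      exact (Nat.modEq_iff_dvd.1 this)
    obtain ⟨q, hq⟩ := h3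
    have h4 : (a : ℤ) ∣ ((n + (a - yy a b n) * b : ℕ) : ℤ) := by
      refine ⟨q + b, ?_⟩
      push_cast [Nat.cast_sub h1.le]
      push_cast at hq
      linarith
    exact_mod_cast h4

theorem ff_QL (ha : 2 ≤ a) (hab : Nat.Coprime a b) : QL (ff a b) := by
  have haq : (a : ℚ) ≠ 0 := by
    have : a ≠ 0 := by omega
    exact_mod_cast this
  refine ⟨fun _ => 1 / a, fun n => (cc a b n : ℚ) / a, ⟨a, by omega, fun n => rfl⟩,
    ⟨a, by omega, fun n => ?_⟩, ⟨0, ?_⟩, fun n => ?_⟩
  · change (cc a b (n + a) : ℚ) / a = (cc a b n : ℚ) / a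
    have : cc a b (n + a) = cc a b n := by
      unfold cc yy
      rw [Nat.add_mod_right]
    rw [this]
  · exact one_div_ne_zero haq
  · unfold ff
    rw [Nat.cast_div (dvd_cc ha hab n) haq]
    push_cast
    field_simp

theorem ql_unique {f g : ℕ → ℕ} (hf : QL f) (hg : QL g) (h : ∃ N, ∀ n, N ≤ n → f n = g n) :
    f = g := by
  obtain ⟨a1, a0, ⟨p1, hp1, ha1⟩, ⟨p2, hp2, ha0⟩, -, hf⟩ := hf
  obtain ⟨b1, b0, ⟨q1, hq1, hb1⟩, ⟨q2, hq2, hb0⟩, -, hg⟩ := hg
  obtain ⟨N, hN⟩ := h
  have hP : 0 < p1 * p2 * q1 * q2 := by positivity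
  set P := p1 * p2 * q1 * q2 with hPdef
  funext n
  have key : ∀ t : ℕ, N ≤ t → a1 n * (n + P * t) + a0 n = b1 n * (n + P * t) + b0 n := by
    intro t ht
    have e1 : a1 (n + P * t) = a1 n := by
      have := (ha1.nat_mul (p2 * q1 * q2 * t)) n
      rw [Nat.cast_id] at this
      rwa [show (p2 * q1 * q2 * t) * p1 = P * t by rw [hPdef]; ring] at this
    have e2 : a0 (n + P * t) = a0 n := by
      have := (ha0.nat_mul (p1 * q1 * q2 * t)) n
      rw [Nat.cast_id] at this
      rwa [show (p1 * q1 * q2 * t) * p2 = P * t by rw [hPdef]; ring] at this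
    have e3 : b1 (n + P * t) = b1 n := by
      have := (hb1.nat_mul (p1 * p2 * q2 * t)) n
      rw [Nat.cast_id] at this
      rwa [show (p1 * p2 * q2 * t) * q1 = P * t by rw [hPdef]; ring] at this
    have e4 : b0 (n + P * t) = b0 n := by
      have := (hb0.nat_mul (p1 * p2 * q1 * t)) n
      rw [Nat.cast_id] at this
      rwa [show (p1 * p2 * q1 * t) * q2 = P * t by rw [hPdef]; ring] at this
    have h1 := hf (n + P * t)
    have h2 := hg (n + P * t)
    have h3 : f (n + P * t) = g (n + P * t) := by
      apply hN
      have : t ≤ P * t := Nat.le_mul_of_pos_left t hP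
      omega
    rw [h3, h2, e1, e2, e3, e4] at h1
    push_cast at h1
    linarith
  have k1 := key N le_rfl
  have k2 := key (N + 1) (by omega)
  push_cast at k2
  have hPq : (P : ℚ) ≠ 0 := by exact_mod_cast hP.ne'
  have h1 : (a1 n - b1 n) * P = 0 := by linarith
  have h2 : a1 n = b1 n := by
    rcases mul_eq_zero.1 h1 with h | h
    · linarith
    · exact absurd h hPq
  have h3 : a0 n = b0 n := by
    rw [h2] at k1
    linarith
  have h4 : (f n : ℚ) = g n := by rw [hf, hg, h2, h3]
  exact_mod_cast h4

end Form

/-- Elements that are not in the eventual form are small. -/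
theorem bound (ha : 2 ≤ a) (hlt : a < b) {x y k : ℕ} (hy : y < a) (hk2 : k * b < x + b)
    (h : (x + if y = 0 then 0 else b) < k * a + y) :
    x * a + y * b ≤ a * (a * ((b - 2) / (b - a)) - 1) := by
  obtain ⟨d, hd, rfl⟩ : ∃ d, 0 < d ∧ b = a + d := ⟨b - a, by omega, by omega⟩
  rw [show a + d - a = d by omega]
  by_cases hy0 : y = 0
  · subst hy0
    simp only [if_true, add_zero] at h
    have h1 : k * d ≤ a + d - 2 := by
      have : k * (a + d) = k * a + k * d := by ring
      omega
    have h2 : k ≤ (a + d - 2) / d := (Nat.le_div_iff_mul_le hd).2 h1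
    have h3 : x ≤ a * ((a + d - 2) / d) - 1 := by
      have : k * a ≤ a * ((a + d - 2) / d) := by
        rw [mul_comm]
        exact Nat.mul_le_mul_left a h2
      omega
    calc x * a + 0 * (a + d) = a * x := by ring
      _ ≤ _ := Nat.mul_le_mul_left a h3
  · rw [if_neg hy0] at h
    have h0 : k * (a + d) = k * a + k * d := by ring
    have h1 : k * d + 3 ≤ a := by omega
    have h2 : k + 1 ≤ (a + d - 2) / d := by
      rw [Nat.le_div_iff_mul_le hd]
      have : (k + 1) * d = k * d + d := by ring
      omega
    set K := (a + d - 2) / d with hK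
    have h3 : 1 ≤ a * K := Nat.mul_pos (by omega) (by omega)
    zify [h3]
    have h4 : (x : ℤ) ≤ k * a + y - (a + d) - 1 := by
      zify at h
      linarith
    have h5 : (y : ℤ) ≤ a - 1 := by
      have : (y : ℤ) < a := by exact_mod_cast hy
      linarith
    have h6 : ((k : ℤ) + 1) ≤ K := by exact_mod_cast h2
    have ha' : (2 : ℤ) ≤ a := by exact_mod_cast ha
    have hd' : (0 : ℤ) < d := by exact_mod_cast hd
    have e1 : (x : ℤ) * a ≤ (k * a + y - (a + d) - 1) * a := by
      apply mul_le_mul_of_nonneg_right h4 (by linarith)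
    have e2 : (y : ℤ) * (2 * a + d) ≤ (a - 1) * (2 * a + d) := by
      apply mul_le_mul_of_nonneg_right h5 (by linarith)
    have e3 : ((k : ℤ) + 1) * (a * a) ≤ K * (a * a) := by
      apply mul_le_mul_of_nonneg_right h6 (by positivity)
    nlinarith [e1, e2, e3]

/-- The dissonance point of a numerical monoid with two generators. -/
theorem two_generators (a b : ℕ) (ha : 1 < a) (hlt : a < b) (hab : Nat.Coprime a b) (D : ℕ) :
    IsDis (AddSubmonoid.closure ({a, b} : Set ℕ)) D ↔
      D = a * (a * ((b - 2) / (b - a)) - 1) := by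
  set S := AddSubmonoid.closure ({a, b} : Set ℕ) with hS
  set D0 := a * (a * ((b - 2) / (b - a)) - 1) with hD0
  have hnf : ∀ n ∈ S, ∃ x y k : ℕ, n = x * a + y * b ∧ y < a ∧ x ≤ k * b ∧ k * b < x + b := by
    intro n hn
    obtain ⟨i, j, rfl⟩ := mem_two.1 hn
    refine ⟨i + b * (j / a), j % a, (i + b * (j / a) + (b - 1)) / b, ?_,
      Nat.mod_lt _ (by omega), ?_, ?_⟩
    · have := Nat.div_add_mod j a
      calc i * a + j * b = i * a + (a * (j / a) + j % a) * b := by rw [this]
        _ = _ := by ring
    · have := Nat.div_add_mod' (i + b * (j / a) + (b - 1)) b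
      have := Nat.mod_lt (i + b * (j / a) + (b - 1)) (show 0 < b by omega)
      omega
    · have := Nat.div_mul_le_self (i + b * (j / a) + (b - 1)) b
      omega
  have hzero : ∀ x y : ℕ, x * a + y * b = 0 → x = 0 ∧ y = 0 := by
    intro x y h
    have h1 : x * a = 0 := by omega
    have h2 : y * b = 0 := by omega
    constructor
    · rcases Nat.mul_eq_zero.1 h1 with h | h
      · exact h
      · omega
    · rcases Nat.mul_eq_zero.1 h2 with h | h
      · exact h
      · omega
  have hsmall : ∀ n ∈ S, primOmega S n ≠ ff a b n → n ≤ D0 := by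
    intro n hn hne
    obtain ⟨x, y, k, rfl, hy, hk1, hk2⟩ := hnf n hn
    by_cases h0 : x * a + y * b = 0
    · omega
    · rw [primOmega_two (by omega) hlt hab x y k hy hk1 hk2 h0, ff_eq (by omega) hab hy] at hne
      apply bound (by omega) hlt hy hk2
      by_contra hc
      exact hne (max_eq_left (by omega))
  have hform : IsForm S (ff a b) := by
    refine ⟨ff_QL (by omega) hab, D0 + 1, fun n hn h => ?_⟩
    by_contra hc
    have := hsmall n hn hc
    omega
  have hgreat : IsGreatest {n | n ∈ S ∧ primOmega S n ≠ ff a b n} D0 := by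
    constructor
    · set K := (b - 2) / (b - a) with hK
      have hK1 : 1 ≤ K := by
        rw [hK, Nat.le_div_iff_mul_le (by omega)]
        omega
      have hK2 : K * (b - a) ≤ b - 2 := Nat.div_mul_le_self _ _
      have hKa : 1 ≤ a * K := Nat.mul_pos (by omega) (by omega)
      have hKb : K * (b - a) + K * a = K * b := by
        rw [← mul_add]
        congr 1
        omega
      have hcomm : a * K = K * a := mul_comm a K
      have hx1 : a * K - 1 ≤ K * b := by omega
      have hx2 : K * b < a * K - 1 + b := by omega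
      have hD : D0 = (a * K - 1) * a + 0 * b := by
        rw [hD0]
        ring
      have h0 : (a * K - 1) * a + 0 * b ≠ 0 := by
        intro h
        obtain ⟨h1, -⟩ := hzero _ _ h
        have : 2 * 1 ≤ a * K := Nat.mul_le_mul (by omega) hK1
        omega
      refine ⟨?_, ?_⟩
      · change D0 ∈ S
        rw [hD]
        exact mem_two.2 ⟨_, _, rfl⟩
      · change primOmega S D0 ≠ ff a b D0
        rw [hD, primOmega_two (by omega) hlt hab (a * K - 1) 0 K (by omega) hx1 hx2 h0,
          ff_eq (by omega) hab (by omega)]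
        simp only [if_true, add_zero]
        rw [max_eq_right (by omega)]
        omega
    · rintro n ⟨hn, hne⟩
      exact hsmall n hn hne
  constructor
  · rintro ⟨g, ⟨hgQ, N, hN⟩, hg⟩
    have hgf : g = ff a b := by
      apply ql_unique hgQ (ff_QL (by omega) hab)
      have hfrob := frobeniusNumber_pair hab (by omega) (by omega)
      refine ⟨max N (max (D0 + 1) (a * b - a - b + 1)), fun n hn => ?_⟩
      have hnS : n ∈ S := (frobeniusNumber_iff.1 hfrob).2 n (by
        have := (le_max_right N (max (D0 + 1) (a * b - a - b + 1))).trans hn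
        have := (le_max_right (D0 + 1) (a * b - a - b + 1)).trans this
        omega)
      have h1 := hN n hnS ((le_max_left _ _).trans hn)
      have h2 : primOmega S n = ff a b n := by
        by_contra hc
        have h3 := hsmall n hnS hc
        have := (le_max_right N (max (D0 + 1) (a * b - a - b + 1))).trans hn
        have := (le_max_left (D0 + 1) (a * b - a - b + 1)).trans this
        omega
      rw [← h1, h2]
    rw [hgf] at hg
    exact hg.unique hgreat
  · rintro rfl
    exact ⟨ff a b, hform, hgreat⟩

section Interval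

/-- The numerical monoid `{0, n, n + 1, n + 2, …}`, generated by `n, n + 1, …, 2 n - 1`. -/
def GM (n : ℕ) : AddSubmonoid ℕ where
  carrier := {x | x = 0 ∨ n ≤ x}
  zero_mem' := Or.inl rfl
  add_mem' := by
    intro a b ha hb
    rw [Set.mem_ofPred_eq] at *
    omega

theorem mem_GM {n x : ℕ} : x ∈ GM n ↔ x = 0 ∨ n ≤ x := Iff.rfl

theorem atoms_GM {n : ℕ} (hn : 3 ≤ n) : atoms (GM n) = Set.Icc n (2 * n - 1) := by
  ext x
  constructor
  · rintro ⟨hx, hx0, hx2⟩
    have step : x - n ∈ GM n → n ≤ x → x = n := by
      intro h h'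
      have := hx2 n (by rw [mem_GM]; omega) (x - n) h (by omega)
      omega
    rw [mem_GM] at hx step
    rw [Set.mem_Icc]
    omega
  · intro hx
    rw [Set.mem_Icc] at hx
    refine ⟨by rw [mem_GM]; omega, by omega, ?_⟩
    intro y hy z hz hyz
    rw [mem_GM] at hy hz
    omega

theorem div_GM {n x y : ℕ} : Div (GM n) x y ↔ y = x ∨ x + n ≤ y := by
  constructor
  · rintro ⟨s, hs, rfl⟩
    rw [mem_GM] at hs
    omega
  · rintro (h | h)
    · exact ⟨0, by rw [mem_GM]; omega, by omega⟩
    · exact ⟨y - x, by rw [mem_GM]; omega, by omega⟩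

/-- The eventual form. -/
def gg (n x : ℕ) : ℕ := if x % n = 0 then x / n + 1 else x / n + 2

theorem gg_QL {n : ℕ} (hn : 3 ≤ n) : QL (gg n) := by
  have hnq : (n : ℚ) ≠ 0 := by
    have : n ≠ 0 := by omega
    exact_mod_cast this
  refine ⟨fun _ => 1 / n, fun x => (if x % n = 0 then 1 else 2) - ((x % n : ℕ) : ℚ) / n,
    ⟨n, by omega, fun x => rfl⟩, ⟨n, by omega, fun x => ?_⟩, ⟨0, ?_⟩, fun x => ?_⟩
  · simp only [Nat.add_mod_right]
  · exact one_div_ne_zero hnq
  · have h1 : ((n * (x / n) + x % n : ℕ) : ℚ) = x := by rw [Nat.div_add_mod]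
    have h2 : (gg n x : ℚ) = ((x / n : ℕ) : ℚ) + if x % n = 0 then 1 else 2 := by
      unfold gg
      split_ifs <;> push_cast <;> ring
    have h3 : ((x / n : ℕ) : ℚ) = 1 / n * x - ((x % n : ℕ) : ℚ) / n := by
      rw [← h1]
      push_cast
      field_simp
      ring
    rw [h2, h3]
    ring

theorem primOmega_GM {n x : ℕ} (hn : 3 ≤ n) (hx : n ≤ x) : primOmega (GM n) x = gg n x := by
  have hat := atoms_GM hn
  unfold primOmega
  rw [if_neg (by omega)]
  have hdm := Nat.div_add_mod x n
  have hml := Nat.mod_lt x (show 0 < n by omega)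
  have hq1 : 1 ≤ x / n := (Nat.one_le_div_iff (by omega)).2 hx
  set q := x / n with hq
  set r := x % n with hr
  have hw : x + n ≤ gg n x * n := by
    unfold gg
    rw [← hq, ← hr]
    split_ifs with h
    · have : (q + 1) * n = n * q + n := by ring
      omega
    · have : (q + 2) * n = n * q + n + n := by ring
      omega
  have hsumge : ∀ U : Multiset ℕ, (∀ u ∈ U, u ∈ atoms (GM n)) → Multiset.card U * n ≤ U.sum := by
    intro U
    induction U using Multiset.induction_on with
    | empty => simp
    | cons u U ih =>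
      intro hU
      have h1 := ih (fun v hv => hU v (Multiset.mem_cons_of_mem hv))
      have h2 := hU u (Multiset.mem_cons_self u U)
      rw [hat, Set.mem_Icc] at h2
      rw [Multiset.card_cons, Multiset.sum_cons, add_mul, one_mul]
      omega
  have hmem : gg n x ∈ {m | ∀ U : Multiset ℕ, (∀ u ∈ U, u ∈ atoms (GM n)) →
      Div (GM n) x U.sum → ∃ T ≤ U, Multiset.card T ≤ m ∧ Div (GM n) x T.sum} := by
    intro U
    induction U using Multiset.induction_on with
    | empty =>
      intro _ h
      exact ⟨0, le_refl _, by simp, h⟩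
    | cons u U ih =>
      intro hU hd
      by_cases hc : Multiset.card (u ::ₘ U) ≤ gg n x
      · exact ⟨_, le_refl _, hc, hd⟩
      · rw [Multiset.card_cons] at hc
        have hU' : ∀ v ∈ U, v ∈ atoms (GM n) := fun v hv => hU v (Multiset.mem_cons_of_mem hv)
        have h1 := hsumge U hU'
        have h2 : gg n x * n ≤ Multiset.card U * n := Nat.mul_le_mul_right n (by omega)
        obtain ⟨T, hT, h3, h4⟩ := ih hU' (div_GM.2 (Or.inr (by omega)))
        exact ⟨T, hT.trans (Multiset.le_cons_self _ _), h3, h4⟩
  apply le_antisymm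
  · exact Nat.sInf_le hmem
  · apply le_csInf ⟨_, hmem⟩
    intro m hm
    unfold gg
    rw [← hq, ← hr]
    by_cases h0 : r = 0
    · rw [if_pos h0]
      obtain ⟨T, hT, hcard, hd⟩ := hm (Multiset.replicate (q - 1) n + Multiset.replicate 2 (n + 1))
        (fun u hu => by
          rw [hat, Set.mem_Icc]
          rw [Multiset.mem_add] at hu
          rcases hu with hu | hu
          · rw [Multiset.eq_of_mem_replicate hu]
            omega
          · rw [Multiset.eq_of_mem_replicate hu]
            omega)
        (by
          rw [div_GM, Multiset.sum_add, Multiset.sum_replicate, Multiset.sum_replicate]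
          right
          simp only [smul_eq_mul]
          have : (q - 1) * n + n = q * n := by
            obtain ⟨q', hq'⟩ : ∃ q', q = q' + 1 := ⟨q - 1, by omega⟩
            rw [hq']
            simp only [Nat.add_sub_cancel]
            ring
          have h5 : n * q = q * n := mul_comm n q
          omega)
      obtain ⟨i, j, rfl⟩ := form_of_atoms (U := T) (a := n) (b := n + 1) (fun u hu => by
        have := Multiset.mem_of_le hT hu
        rw [Multiset.mem_add] at this
        rcases this with h | h
        · exact Or.inl (Multiset.eq_of_mem_replicate h)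
        · exact Or.inr (Multiset.eq_of_mem_replicate h))
      have hi : i ≤ q - 1 := by
        have := Multiset.count_le_of_le n hT
        simpa [Multiset.count_replicate] using this
      have hj : j ≤ 2 := by
        have := Multiset.count_le_of_le (n + 1) hT
        simpa [Multiset.count_replicate] using this
      rw [Multiset.card_add, Multiset.card_replicate, Multiset.card_replicate] at hcard
      rw [div_GM, Multiset.sum_add, Multiset.sum_replicate, Multiset.sum_replicate] at hd
      simp only [smul_eq_mul] at hd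
      have e1 : i * n + j * (n + 1) = (i + j) * n + j := by ring
      rw [e1] at hd
      refine le_trans ?_ hcard
      by_contra hc
      have h6 : i + j ≤ q := by omega
      have h7 : (i + j) * n ≤ q * n := Nat.mul_le_mul_right n h6
      have h8 : n * q = q * n := mul_comm n q
      rcases hd with hd | hd
      · -- equality
        rcases Nat.eq_zero_or_pos j with hj0 | hj0
        · subst hj0
          have h9 : (i + 0) * n ≤ (q - 1) * n := Nat.mul_le_mul_right n (by omega)
          have h10 : (q - 1) * n + n = q * n := by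
            obtain ⟨q', hq'⟩ : ∃ q', q = q' + 1 := ⟨q - 1, by omega⟩
            rw [hq']
            simp only [Nat.add_sub_cancel]
            ring
          omega
        · have h11 : (i + j) * n + n ≤ q * n ∨ i + j = q := by
            rcases eq_or_lt_of_le h6 with h | h
            · exact Or.inr h
            · left
              have : (i + j + 1) * n ≤ q * n := Nat.mul_le_mul_right n h
              have e : (i + j + 1) * n = (i + j) * n + n := by ring
              omega
          rcases h11 with h | h
          · omega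
          · rw [h] at hd
            omega
      · omega
    · rw [if_neg h0]
      obtain ⟨T, hT, hcard, hd⟩ := hm (Multiset.replicate (q + 2) n)
        (fun u hu => by
          rw [hat, Set.mem_Icc, Multiset.eq_of_mem_replicate hu]
          omega)
        (by
          rw [div_GM, Multiset.sum_replicate]
          right
          simp only [smul_eq_mul]
          have : (q + 2) * n = n * q + n + n := by ring
          omega)
      obtain ⟨i, hi, rfl⟩ := Multiset.le_replicate_iff.1 hT
      rw [Multiset.card_replicate] at hcard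
      rw [div_GM, Multiset.sum_replicate] at hd
      simp only [smul_eq_mul] at hd
      refine le_trans ?_ hcard
      by_contra hc
      have h6 : i ≤ q + 1 := by omega
      have h7 : i * n ≤ (q + 1) * n := Nat.mul_le_mul_right n h6
      have h8 : (q + 1) * n = n * q + n := by ring
      rcases hd with hd | hd
      · apply h0
        rw [hr, ← hd]
        exact Nat.mul_mod_left i n
      · omega

theorem interval (n : ℕ) (hn : 3 ≤ n) (D : ℕ) : IsDis (GM n) D ↔ D = 0 := by
  have hval : ∀ x ∈ GM n, primOmega (GM n) x ≠ gg n x → x = 0 := by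
    intro x hx hne
    rw [mem_GM] at hx
    rcases hx with h | h
    · exact h
    · exact absurd (primOmega_GM hn h) hne
  have hgreat : IsGreatest {x | x ∈ GM n ∧ primOmega (GM n) x ≠ gg n x} 0 := by
    constructor
    · refine ⟨(GM n).zero_mem, ?_⟩
      unfold primOmega gg
      simp
    · rintro x ⟨hx, hne⟩
      rw [hval x hx hne]
  constructor
  · rintro ⟨g, ⟨hgQ, N, hN⟩, hg⟩
    have hgf : g = gg n := by
      apply ql_unique hgQ (gg_QL hn)
      refine ⟨max N n, fun x hx => ?_⟩
      have hxn : n ≤ x := (le_max_right _ _).trans hx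
      rw [← hN x (Or.inr hxn) ((le_max_left _ _).trans hx), primOmega_GM hn hxn]
    rw [hgf] at hg
    exact hg.unique hgreat
  · rintro rfl
    refine ⟨gg n, ⟨gg_QL hn, 1, fun x hx h => ?_⟩, hgreat⟩
    by_contra hc
    have := hval x hx hc
    omega

end Interval

/-- The dissonance point for two generators, and for the monoids `{0, n, n + 1, …}`. -/
theorem result :
    (∀ a b : ℕ, 1 < a → a < b → Nat.Coprime a b → ∀ D : ℕ,
      (IsDis (AddSubmonoid.closure ({a, b} : Set ℕ)) D ↔
        D = a * (a * ((b - 2) / (b - a)) - 1))) ∧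
    (∀ n : ℕ, 3 ≤ n → ∀ D : ℕ, (IsDis (GM n) D ↔ D = 0)) :=
  ⟨fun a b ha hlt hab D => two_generators a b ha hlt hab D, fun n hn D => interval n hn D⟩

end Pool.Agent.Results.MP_b95813_al.TwoGenerators
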